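import Pool.Agent.helper27.SY.Spec

set_option autoImplicit false

namespace Pool.Agent.SY

open Finset ArithmeticFunction Pool.Agent.SX Pool.Agent.helper85.BVP

lemma GSQ_eq (K : ℕ) (α : ℝ) : GG K α = ex α * ∑ u ∈ range K, ex ((u : ℝ) * α) := by
  rw [GG, mul_sum]
  refine sum_congr rfl fun u _ => ?_
  rw [← ex_add]
  congr 1
  push_cast
  ring

lemma GSQ_norm (K : ℕ) (α : ℝ) : ‖GG K α‖ = ‖∑ u ∈ range K, ex ((u : ℝ) * α)‖ := by
  rw [GSQ_eq, norm_mul, norm_ex, one_mul]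

lemma GSQ_sd (q a : ℕ) (ha : 1 ≤ a) (haq : a < q) :
    0 < |sd ((a : ℝ) / q)| ∧ 1 / |sd ((a : ℝ) / q)| ≤ q * (1 / a + 1 / ((q : ℝ) - a)) := by
  have hq : (0 : ℝ) < q := by exact_mod_cast (by omega : 0 < q)
  have ha0 : (0 : ℝ) < a := by exact_mod_cast (by omega : 0 < a)
  have hqa : (0 : ℝ) < (q : ℝ) - a := by
    have : (a : ℝ) < q := by exact_mod_cast haq
    linarith
  have hcase : (a : ℝ) / q ≤ |sd ((a : ℝ) / q)| ∨ ((q : ℝ) - a) / q ≤ |sd ((a : ℝ) / q)| := by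
    rw [sd]
    rcases le_or_gt (round ((a : ℝ) / q)) 0 with h | h
    · left
      have h1 : ((round ((a : ℝ) / q) : ℤ) : ℝ) ≤ 0 := by exact_mod_cast h
      refine le_trans ?_ (le_abs_self _)
      linarith
    · right
      have h1 : (1 : ℝ) ≤ ((round ((a : ℝ) / q) : ℤ) : ℝ) := by exact_mod_cast h
      have h2 : ((q : ℝ) - a) / q = 1 - a / q := by field_simp
      rw [h2]
      refine le_trans ?_ (neg_le_abs _)
      linarith
  rcases hcase with h | h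
  · have hp : (0 : ℝ) < (a : ℝ) / q := div_pos ha0 hq
    refine ⟨lt_of_lt_of_le hp h, ?_⟩
    have h1 : 1 / |sd ((a : ℝ) / q)| ≤ 1 / ((a : ℝ) / q) := one_div_le_one_div_of_le hp h
    have h2 : 1 / ((a : ℝ) / q) = q * (1 / a) := by field_simp
    rw [h2] at h1
    have h3 : (0 : ℝ) ≤ q * (1 / ((q : ℝ) - a)) := by positivity
    linarith [mul_add (q : ℝ) (1 / a) (1 / ((q : ℝ) - a))]
  · have hp : (0 : ℝ) < ((q : ℝ) - a) / q := div_pos hqa hq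
    refine ⟨lt_of_lt_of_le hp h, ?_⟩
    have h1 : 1 / |sd ((a : ℝ) / q)| ≤ 1 / (((q : ℝ) - a) / q) := one_div_le_one_div_of_le hp h
    have h2 : 1 / (((q : ℝ) - a) / q) = q * (1 / ((q : ℝ) - a)) := by field_simp
    rw [h2] at h1
    have h3 : (0 : ℝ) ≤ q * (1 / (a : ℝ)) := by positivity
    linarith [mul_add (q : ℝ) (1 / a) (1 / ((q : ℝ) - a))]

lemma GSQ_term (K q a : ℕ) (ha : 1 ≤ a) (haq : a < q) :
    ‖GG K ((a : ℝ) / q)‖ ^ 2 ≤ (K : ℝ) * q / 2 * (1 / a + 1 / ((q : ℝ) - a)) := by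
  obtain ⟨h0, h1⟩ := GSQ_sd q a ha haq
  have h2 : ‖GG K ((a : ℝ) / q)‖ ≤ K := by
    rw [GSQ_norm]
    exact norm_geom_le_card K _
  have h3 : ‖GG K ((a : ℝ) / q)‖ ≤ 1 / (2 * |sd ((a : ℝ) / q)|) := by
    rw [GSQ_norm]
    exact norm_geom_le K _ (abs_pos.mp h0)
  have h4 : 1 / (2 * |sd ((a : ℝ) / q)|) = 1 / |sd ((a : ℝ) / q)| / 2 := by
    field_simp
  rw [h4] at h3
  have h5 : ‖GG K ((a : ℝ) / q)‖ ≤ q * (1 / a + 1 / ((q : ℝ) - a)) / 2 := by linarith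
  have h6 : ‖GG K ((a : ℝ) / q)‖ ^ 2 ≤ K * (q * (1 / a + 1 / ((q : ℝ) - a)) / 2) := by
    rw [pow_two]
    exact mul_le_mul h2 h5 (norm_nonneg _) (Nat.cast_nonneg K)
  refine h6.trans (le_of_eq ?_)
  ring

lemma GSQ_harm (q : ℕ) (hq : 2 ≤ q) : ∑ a ∈ Ico 1 q, (1 : ℝ) / a ≤ 1 + Real.log q := by
  have h1 : ∑ a ∈ Ico 1 q, (1 : ℝ) / a = ((harmonic (q - 1) : ℚ) : ℝ) := by
    rw [harmonic, sum_Ico_eq_sum_range]
    push_cast
    refine sum_congr rfl fun i _ => ?_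
    rw [one_div, add_comm]
  rw [h1]
  refine (harmonic_le_one_add_log (q - 1)).trans ?_
  have h2 : (0 : ℝ) < ((q - 1 : ℕ) : ℝ) := by exact_mod_cast (by omega : 0 < q - 1)
  have h3 : ((q - 1 : ℕ) : ℝ) ≤ q := by exact_mod_cast Nat.sub_le q 1
  linarith [Real.log_le_log h2 h3]

lemma GSQ_refl (q : ℕ) : ∑ a ∈ Ico 1 q, (1 : ℝ) / ((q : ℝ) - a) = ∑ a ∈ Ico 1 q, (1 : ℝ) / a := by
  refine sum_nbij' (fun a => q - a) (fun a => q - a) ?_ ?_ ?_ ?_ ?_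
  · intro a ha
    rw [mem_Ico] at ha ⊢
    omega
  · intro a ha
    rw [mem_Ico] at ha ⊢
    omega
  · intro a ha
    rw [mem_Ico] at ha
    omega
  · intro a ha
    rw [mem_Ico] at ha
    omega
  · intro a ha
    rw [mem_Ico] at ha
    rw [Nat.cast_sub (by omega : a ≤ q)]

theorem GSQ : GSQ_stmt := by
  intro K q hq
  calc ∑ a ∈ Ico 1 q, ‖GG K ((a : ℝ) / q)‖ ^ 2
      ≤ ∑ a ∈ Ico 1 q, (K : ℝ) * q / 2 * (1 / a + 1 / ((q : ℝ) - a)) := by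
        refine sum_le_sum fun a ha => ?_
        rw [mem_Ico] at ha
        exact GSQ_term K q a ha.1 ha.2
    _ = (K : ℝ) * q * ∑ a ∈ Ico 1 q, (1 : ℝ) / a := by
        rw [← mul_sum, sum_add_distrib, GSQ_refl]
        ring
    _ ≤ (K : ℝ) * q * (1 + Real.log q) :=
        mul_le_mul_of_nonneg_left (GSQ_harm q hq) (by positivity)

end Pool.Agent.SY
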